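import Pool.Agent.H350.QAR.Iso
import Pool.Agent.H350.QAR.Alg

/-!
# MP_dd8834_al, Q2: the rational numbers in an asymptotically rigid mapping class group

`RigidSurface` (a locally finite planar tree, thickened in the plane, with a rigid structure) and
its asymptotically rigid mapping class group `RigidSurface.Mod` are defined in
`Pool.Graph.R_pool_sql_team_seeded_3997aac3.Q238.AR.Defs`.

Outline. The tree is a path `a - b - c` followed by a rooted tree: the vertices of level `n`
form, behind each of `n!` edges, a path of `n` vertices, whose last vertex has `n + 1` children.
Let `D` be a disc around the punctures `a` and `b`. The subsurface of the vertices of level less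
than `n` has `n!` arcs in its boundary, and `n!` punctures outside of `D`; so it has a rotation
`h n` by one arc, which is the identity on `D`, which permutes the `n!` punctures cyclically,
and which is rigid outside of the subsurface. It can be chosen such that `h (n + 1) ^ (n + 1)` is
isotopic to `h n`; and `h 1` is the Dehn twist along the boundary of `D`, which has infinite order
since the winding number of a path from `b` to `c` around `a` is changed. The coordinates are
`Pool.Agent.H350.QAR.U`; in them the rotations are translations and the maps which move the
punctures and the gaps of the surface to standard positions are radial.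
-/

set_option autoImplicit false

namespace Pool.Agent.Results.MP_dd8834_al.RationalsEmbed

open Pool.Agent.Q238.AR

/-- There is a locally finite planar tree whose asymptotically rigid mapping class group contains
a subgroup which is isomorphic to the additive group of the rational numbers. -/
theorem result : ∃ X : RigidSurface, (∀ v, (X.T.neighborSet v).Finite) ∧
    ∃ H : Subgroup X.Mod, Nonempty (Multiplicative ℚ ≃* H) := by
  refine ⟨Pool.Agent.H350.QAR.XX, fun v => ?_, ?_⟩
  · exact Pool.Agent.H350.QAR.nbr_finite _ v
  · obtain ⟨f, hf⟩ := Pool.Agent.H350.QAR.rat_embed
      (fun n => RigidSurface.cls _ (Pool.Agent.H350.QAR.gn n))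
      Pool.Agent.H350.QAR.rel (fun k hk => Pool.Agent.H350.QAR.twist hk)
    exact ⟨f.range, ⟨MonoidHom.ofInjective hf⟩⟩

end Pool.Agent.Results.MP_dd8834_al.RationalsEmbed
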